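import Pool.Agent.H30.GonT

set_option autoImplicit false

namespace Pool.Agent.Results.MP_d208ff_co.Counter
open Pool.Agent.H30.Gon

theorem result :
    (∃ A : Fin 9 → Fin 9 → ℕ, IsGraph A ∧ gon A 1 = 5 ∧ gon A 2 = 6 ∧ genus A = 8 ∧ gon A 3 ≤ 8) ∧
    ¬ (∀ (n : ℕ) (A : Fin n → Fin n → ℕ), IsGraph A → gon A 2 = gon A 1 + 1 →
        genus A = ((gon A 1).choose 2 : ℕ)) ∧
    ¬ (∀ (n : ℕ) (A : Fin n → Fin n → ℕ), IsGraph A → gon A 2 = gon A 1 + 1 →
        (∀ r : ℕ, 1 ≤ r → (gon A 1).choose 2 ≤ r → gon A r = (gon A 1).choose 2 + r) ∧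
        (∀ r l h : ℕ, 1 ≤ r → r < (gon A 1).choose 2 → 1 ≤ l → l + 2 ≤ gon A 1 → h ≤ l →
          r + h = l * (l + 3) / 2 → gon A r + h = l * (gon A 1 + 1))) := by
  have g1 := Pool.Agent.H30.GonT.g1
  have g2 := Pool.Agent.H30.GonT.g2
  have g3 := Pool.Agent.H30.GonT.g3
  have hg := Pool.Agent.H30.GonT.genus_eq
  have hG := Pool.Agent.H30.GonT.isGraph
  refine ⟨⟨_, hG, g1, g2, hg, g3⟩, fun h => ?_, fun h => ?_⟩
  · have := h 9 _ hG (by rw [g1, g2])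
    rw [hg, g1] at this
    exact absurd this (by decide)
  · have := (h 9 _ hG (by rw [g1, g2])).2 3 2 2 (by norm_num) (by rw [g1]; decide) (by norm_num)
      (by rw [g1]; norm_num) le_rfl (by norm_num)
    rw [g1] at this
    omega

end Pool.Agent.Results.MP_d208ff_co.Counter
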